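import Mathlib

set_option autoImplicit false

/-!
The positive part of the quantum affine algebra of type `A_1^(1)`, presented by the `q`-Serre
relations.
-/

namespace Pool.Agent.W420.Cen

/-- The `q`-Serre expression `x^3 y - [3]_q x^2 y x + [3]_q x y x^2 - y x^3`, where
`[3]_q = q^2 + 1 + q^(-2)`. -/
def serre {K : Type*} [Field K] {T : Type*} [Ring T] [Algebra K T] (q : K) (x y : T) : T :=
  x ^ 3 * y - (q ^ 2 + 1 + (q ^ 2)⁻¹) • (x ^ 2 * y * x) + (q ^ 2 + 1 + (q ^ 2)⁻¹) • (x * y * x ^ 2) -
    y * x ^ 3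

/-- The two `q`-Serre relations between the generators `A` (the generator `0`) and `A^*`
(the generator `1`) of the free algebra. -/
inductive Rel (K : Type*) [Field K] (q : K) : FreeAlgebra K (Fin 2) → FreeAlgebra K (Fin 2) → Prop
  | first : Rel K q (serre q (FreeAlgebra.ι K 0) (FreeAlgebra.ι K 1)) 0
  | second : Rel K q (serre q (FreeAlgebra.ι K 1) (FreeAlgebra.ι K 0)) 0

/-- The algebra `U^+` with generators `A`, `A^*` and the two `q`-Serre relations. -/
abbrev UPlus (K : Type*) [Field K] (q : K) : Type _ := RingQuot (Rel K q)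

end Pool.Agent.W420.Cen
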