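import Mathlib
import Pool.Agent.W420.Cen.Defs

set_option autoImplicit false

namespace Pool.Agent.W420.Cen

variable {K : Type*} [Field K]

section serre

variable {T : Type*} [Ring T] [Algebra K T]

theorem serre_smul (q : K) (a b : K) (x y : T) :
    serre q (a • x) (b • y) = (a ^ 3 * b) • serre q x y := by
  unfold serre
  simp only [pow_succ, pow_zero, one_mul, smul_mul_assoc, mul_smul_comm, smul_smul, smul_sub, smul_add]
  match_scalars <;> ring

theorem map_serre {T' : Type*} [Ring T'] [Algebra K T'] (f : T →ₐ[K] T') (q : K) (x y : T) :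
    f (serre q x y) = serre q (f x) (f y) := by
  unfold serre
  simp only [map_sub, map_add, map_mul, map_pow, map_smul]

/-- The `q`-Serre expression is additive on `q`-commuting pairs. -/
theorem serre_add (q : K) (hq : q ≠ 0) (x x' y y' : T)
    (h1 : y * x = q ^ 2 • (x * y)) (h2 : y * x' = (q ^ 2)⁻¹ • (x' * y))
    (h3 : y' * x = (q ^ 2)⁻¹ • (x * y')) (h4 : y' * x' = q ^ 2 • (x' * y')) :
    serre q (x + y) (x' + y') = serre q x x' + serre q y y' := by
  have h1' : ∀ w, y * (x * w) = q ^ 2 • (x * (y * w)) := fun w => by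
    rw [← mul_assoc, h1, smul_mul_assoc, mul_assoc]
  have h2' : ∀ w, y * (x' * w) = (q ^ 2)⁻¹ • (x' * (y * w)) := fun w => by
    rw [← mul_assoc, h2, smul_mul_assoc, mul_assoc]
  have h3' : ∀ w, y' * (x * w) = (q ^ 2)⁻¹ • (x * (y' * w)) := fun w => by
    rw [← mul_assoc, h3, smul_mul_assoc, mul_assoc]
  unfold serre
  simp only [pow_succ, pow_zero, one_mul, mul_add, add_mul, mul_assoc, h1, h2, h3, h4, h1', h2', h3',
    smul_mul_assoc, mul_smul_comm, smul_smul, smul_sub, smul_add]
  match_scalars <;> field_simp <;> ring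

end serre

/-- a copy of the algebra with a single path of instances -/
def UU (K : Type*) [Field K] (q : K) : Type _ := UPlus K q

noncomputable instance (q : K) : Ring (UU K q) := inferInstanceAs (Ring (UPlus K q))

noncomputable instance (q : K) : Algebra K (UU K q) := inferInstanceAs (Algebra K (UPlus K q))

variable (q : K)

/-- the quotient map -/
noncomputable def quo : FreeAlgebra K (Fin 2) →ₐ[K] UU K q := RingQuot.mkAlgHom K (Rel K q)

theorem quo_surj : Function.Surjective (quo q) := RingQuot.mkAlgHom_surjective K (Rel K q)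

theorem quo_rel {a b : FreeAlgebra K (Fin 2)} (h : Rel K q a b) : quo q a = quo q b :=
  RingQuot.mkAlgHom_rel K h

/-- the generators -/
noncomputable def E (i : Fin 2) : UU K q := quo q (FreeAlgebra.ι K i)

theorem serre_E (i j : Fin 2) (hij : i ≠ j) : serre q (E q i) (E q j) = 0 := by
  unfold E
  rw [← map_serre, ← map_zero (quo q)]
  apply quo_rel
  fin_cases i <;> fin_cases j
  · exact absurd rfl hij
  · exact Rel.first
  · exact Rel.second
  · exact absurd rfl hij

theorem lft_rel {T : Type*} [Ring T] [Algebra K T] (x : Fin 2 → T)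
    (h : ∀ i j, i ≠ j → serre q (x i) (x j) = 0) ⦃a b : FreeAlgebra K (Fin 2)⦄ (hab : Rel K q a b) :
    FreeAlgebra.lift K x a = FreeAlgebra.lift K x b := by
  cases hab with
  | first => rw [map_serre, FreeAlgebra.lift_ι_apply, FreeAlgebra.lift_ι_apply, map_zero]; exact h 0 1 (by decide)
  | second => rw [map_serre, FreeAlgebra.lift_ι_apply, FreeAlgebra.lift_ι_apply, map_zero]; exact h 1 0 (by decide)

/-- the universal property -/
noncomputable def lft {T : Type*} [Ring T] [Algebra K T] (x : Fin 2 → T)
    (h : ∀ i j, i ≠ j → serre q (x i) (x j) = 0) : UU K q →ₐ[K] T :=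
  RingQuot.liftAlgHom K ⟨FreeAlgebra.lift K x, lft_rel q x h⟩

@[simp] theorem lft_E {T : Type*} [Ring T] [Algebra K T] (x : Fin 2 → T)
    (h : ∀ i j, i ≠ j → serre q (x i) (x j) = 0) (i : Fin 2) : lft q x h (E q i) = x i := by
  have h1 := RingQuot.liftAlgHom_mkAlgHom_apply K (FreeAlgebra.lift K x) (lft_rel q x h) (FreeAlgebra.ι K i)
  have h2 : FreeAlgebra.lift K x (FreeAlgebra.ι K i) = x i := FreeAlgebra.lift_ι_apply x i
  exact h1.trans h2

theorem adjoin_E : Algebra.adjoin K (Set.range (E q)) = ⊤ := by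
  have h1 : (quo q).range = ⊤ := by
    rw [AlgHom.range_eq_top]; exact quo_surj q
  rw [← h1, ← Algebra.map_top, ← FreeAlgebra.adjoin_range_ι, AlgHom.map_adjoin, ← Set.range_comp]
  rfl

/-- induction: a subspace containing `1` and stable under left multiplication by the generators -/
theorem ind (W : Submodule K (UU K q)) (h1 : (1 : UU K q) ∈ W)
    (hE : ∀ i, ∀ w ∈ W, E q i * w ∈ W) (w : UU K q) : w ∈ W := by
  have h : w ∈ Algebra.adjoin K (Set.range (E q)) := by rw [adjoin_E]; trivial
  have key : ∀ u ∈ W, w * u ∈ W := by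
    induction h using Algebra.adjoin_induction with
    | mem x hx => obtain ⟨i, rfl⟩ := hx; exact hE i
    | algebraMap r => intro u hu; rw [← Algebra.smul_def]; exact W.smul_mem r hu
    | add x y _ _ hx hy => intro u hu; rw [add_mul]; exact W.add_mem (hx u hu) (hy u hu)
    | mul x y _ _ hx hy => intro u hu; rw [mul_assoc]; exact hx _ (hy u hu)
  simpa using key 1 h1

theorem lin_ext {V : Type*} [AddCommGroup V] [Module K V] (f g : UU K q →ₗ[K] V) (h1 : f 1 = g 1)
    (hE : ∀ i w, f w = g w → f (E q i * w) = g (E q i * w)) (w : UU K q) : f w = g w :=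
  ind q (LinearMap.eqLocus f g) h1 (fun i w hw => hE i w hw) w

/-- the scalars `q^(a i j)` for the Cartan matrix `a` -/
def cc (i j : Fin 2) : K := if i = j then q ^ 2 else (q ^ 2)⁻¹

theorem cc_self (i : Fin 2) : cc q i i = q ^ 2 := by simp [cc]

theorem cc_ne {i j : Fin 2} (h : i ≠ j) : cc q i j = (q ^ 2)⁻¹ := by simp [cc, h]

theorem cc_comm (i j : Fin 2) : cc q i j = cc q j i := by unfold cc; simp only [eq_comm]

variable {q}

theorem cc_ne_zero (hq : q ≠ 0) (i j : Fin 2) : cc q i j ≠ 0 := by
  unfold cc; split_ifs <;> simp [hq]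

variable (q)

/-- the automorphisms -/
noncomputable def kap (i : Fin 2) : UU K q →ₐ[K] UU K q :=
  lft q (fun j => cc q i j • E q j) (fun j l h => by rw [serre_smul, serre_E q j l h, smul_zero])

@[simp] theorem kap_E (i j : Fin 2) : kap q i (E q j) = cc q i j • E q j := by
  unfold kap; rw [lft_E]

theorem kap_E_mul (i j : Fin 2) (w : UU K q) : kap q i (E q j * w) = cc q i j • (E q j * kap q i w) := by
  rw [map_mul, kap_E, smul_mul_assoc]

theorem kap_comm (i j : Fin 2) (w : UU K q) : kap q i (kap q j w) = kap q j (kap q i w) := by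
  apply lin_ext q ((kap q i).toLinearMap ∘ₗ (kap q j).toLinearMap) ((kap q j).toLinearMap ∘ₗ (kap q i).toLinearMap)
  · simp
  · intro l w h
    simp only [LinearMap.comp_apply, AlgHom.toLinearMap_apply] at h ⊢
    rw [kap_E_mul, kap_E_mul, map_smul, map_smul, kap_E_mul, kap_E_mul, h, smul_comm]

theorem kap_kap {i j : Fin 2} (hij : i ≠ j) (hq : q ≠ 0) (w : UU K q) : kap q i (kap q j w) = w := by
  apply lin_ext q ((kap q i).toLinearMap ∘ₗ (kap q j).toLinearMap) LinearMap.id
  · simp
  · intro l w h
    simp only [LinearMap.comp_apply, AlgHom.toLinearMap_apply, LinearMap.id_apply] at h ⊢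
    rw [kap_E_mul, map_smul, kap_E_mul, h, smul_smul]
    have : cc q j l * cc q i l = 1 := by
      have hl : l = i ∨ l = j := by
        fin_cases i <;> fin_cases j <;> fin_cases l <;> simp_all
      rcases hl with rfl | rfl
      · rw [cc_self, cc_ne q hij.symm]; field_simp
      · rw [cc_self, cc_ne q hij]; field_simp
    rw [this, one_smul]

end Pool.Agent.W420.Cen
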