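import Mathlib
import Pool.Agent.W420.Cen.Basic

set_option autoImplicit false

namespace Pool.Agent.W420.Cen

variable {K : Type*} [Field K] (q : K)

/-- the matrices defining the skew derivations -/
noncomputable def mx (i j : Fin 2) : Matrix (Fin 2) (Fin 2) (UU K q) :=
  !![E q j, if i = j then 1 else 0; 0, cc q i j • E q j]

theorem serre_diag {T : Type*} [Ring T] [Algebra K T] (a b c d : T) :
    serre q (!![a, 0; 0, b] : Matrix (Fin 2) (Fin 2) T) !![c, 0; 0, d] =
      !![serre q a c, 0; 0, serre q b d] := by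
  ext i j
  fin_cases i <;> fin_cases j <;> simp [serre, pow_succ]

theorem serre_nil {T : Type*} [Ring T] [Algebra K T] (a b : T) :
    serre q (!![0, a; 0, 0] : Matrix (Fin 2) (Fin 2) T) !![0, b; 0, 0] = 0 := by
  ext i j
  fin_cases i <;> fin_cases j <;> simp [serre, pow_succ]

theorem serre_mx (hq : q ≠ 0) (i j l : Fin 2) (hjl : j ≠ l) : serre q (mx q i j) (mx q i l) = 0 := by
  have e : ∀ j, mx q i j = !![E q j, 0; 0, cc q i j • E q j] + !![0, if i = j then 1 else 0; 0, 0] := by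
    intro j
    unfold mx
    ext a b
    fin_cases a <;> fin_cases b <;> simp
  have key : ∀ j l : Fin 2, (!![0, if i = j then 1 else 0; 0, 0] : Matrix (Fin 2) (Fin 2) (UU K q)) *
      !![E q l, 0; 0, cc q i l • E q l] =
      cc q j l • (!![E q l, 0; 0, cc q i l • E q l] * !![0, if i = j then 1 else 0; 0, 0]) := by
    intro j l
    by_cases h : i = j
    · subst h
      ext a b
      fin_cases a <;> fin_cases b <;> simp [Matrix.mul_apply, Fin.sum_univ_two]
    · rw [if_neg h]
      have : (!![0, 0; 0, 0] : Matrix (Fin 2) (Fin 2) (UU K q)) = 0 := by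
        ext a b; fin_cases a <;> fin_cases b <;> rfl
      rw [this, zero_mul, mul_zero, smul_zero]
  rw [e j, e l, serre_add q hq, serre_diag, serre_nil, serre_E q j l hjl, serre_smul, serre_E q j l hjl,
    smul_zero, add_zero]
  · ext a b
    fin_cases a <;> fin_cases b <;> simp
  · rw [key j j, cc_self]
  · rw [key j l, cc_ne q hjl]
  · rw [key l j, cc_ne q hjl.symm]
  · rw [key l l, cc_self]

/-- the algebra homomorphism defining the skew derivation -/
noncomputable def psi (hq : q ≠ 0) (i : Fin 2) : UU K q →ₐ[K] Matrix (Fin 2) (Fin 2) (UU K q) :=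
  lft q (mx q i) (fun j l h => serre_mx q hq i j l h)

/-- the right skew derivation `r_i` -/
noncomputable def rr (hq : q ≠ 0) (i : Fin 2) : UU K q →ₗ[K] UU K q where
  toFun w := psi q hq i w 0 1
  map_add' a b := by rw [map_add, Matrix.add_apply]
  map_smul' a b := by rw [map_smul, Matrix.smul_apply, RingHom.id_apply]

theorem psi_eq (hq : q ≠ 0) (i : Fin 2) (w : UU K q) :
    psi q hq i w 0 0 = w ∧ psi q hq i w 1 0 = 0 ∧ psi q hq i w 1 1 = kap q i w := by
  have hE : ∀ j, psi q hq i (E q j) = mx q i j := fun j => by unfold psi; rw [lft_E]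
  apply ind q
    { carrier := {w | psi q hq i w 0 0 = w ∧ psi q hq i w 1 0 = 0 ∧ psi q hq i w 1 1 = kap q i w}
      add_mem' := by
        rintro a b ⟨h1, h2, h3⟩ ⟨h4, h5, h6⟩
        refine ⟨?_, ?_, ?_⟩
        · rw [map_add, Matrix.add_apply, h1, h4]
        · rw [map_add, Matrix.add_apply, h2, h5, add_zero]
        · rw [map_add, Matrix.add_apply, h3, h6, map_add]
      zero_mem' := by simp
      smul_mem' := by
        rintro c a ⟨h1, h2, h3⟩
        refine ⟨?_, ?_, ?_⟩
        · rw [map_smul, Matrix.smul_apply, h1]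
        · rw [map_smul, Matrix.smul_apply, h2, smul_zero]
        · rw [map_smul, Matrix.smul_apply, h3, map_smul] }
  · simp
  · rintro j w ⟨h1, h2, h3⟩
    refine ⟨?_, ?_, ?_⟩
    · rw [map_mul, hE, Matrix.mul_apply, Fin.sum_univ_two, h1, h2]; simp [mx]
    · rw [map_mul, hE, Matrix.mul_apply, Fin.sum_univ_two, h1, h2]; simp [mx]
    · rw [map_mul, hE, Matrix.mul_apply, Fin.sum_univ_two, h3, map_mul, kap_E]; simp [mx]

theorem rr_mul (hq : q ≠ 0) (i : Fin 2) (a b : UU K q) :
    rr q hq i (a * b) = a * rr q hq i b + rr q hq i a * kap q i b := by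
  change psi q hq i (a * b) 0 1 = a * psi q hq i b 0 1 + psi q hq i a 0 1 * kap q i b
  rw [map_mul, Matrix.mul_apply, Fin.sum_univ_two, (psi_eq q hq i a).1, (psi_eq q hq i b).2.2]

theorem rr_E (hq : q ≠ 0) (i j : Fin 2) : rr q hq i (E q j) = if i = j then 1 else 0 := by
  change psi q hq i (E q j) 0 1 = _
  unfold psi; rw [lft_E]; simp [mx]

theorem rr_one (hq : q ≠ 0) (i : Fin 2) : rr q hq i 1 = 0 := by
  change psi q hq i 1 0 1 = _
  rw [map_one]; simp

theorem rr_E_mul_self (hq : q ≠ 0) (i : Fin 2) (w : UU K q) :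
    rr q hq i (E q i * w) = E q i * rr q hq i w + kap q i w := by
  rw [rr_mul, rr_E, if_pos rfl, one_mul]

theorem rr_E_mul_ne (hq : q ≠ 0) {i j : Fin 2} (h : i ≠ j) (w : UU K q) :
    rr q hq i (E q j * w) = E q j * rr q hq i w := by
  rw [rr_mul, rr_E, if_neg h, zero_mul, add_zero]

theorem rr_mul_E_self (hq : q ≠ 0) (i : Fin 2) (w : UU K q) :
    rr q hq i (w * E q i) = w + q ^ 2 • (rr q hq i w * E q i) := by
  rw [rr_mul, rr_E, if_pos rfl, mul_one, kap_E, cc_self, mul_smul_comm]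

theorem rr_kap (hq : q ≠ 0) (i : Fin 2) (w : UU K q) :
    rr q hq i (kap q i w) = q ^ 2 • kap q i (rr q hq i w) := by
  apply lin_ext q ((rr q hq i) ∘ₗ (kap q i).toLinearMap) (q ^ 2 • ((kap q i).toLinearMap ∘ₗ rr q hq i))
  · simp [rr_one]
  · intro l w h
    simp only [LinearMap.comp_apply, AlgHom.toLinearMap_apply, LinearMap.smul_apply] at h ⊢
    rw [kap_E_mul, map_smul, rr_mul, rr_mul, map_add, h, rr_E]
    by_cases hil : i = l
    · subst hil
      rw [if_pos rfl, one_mul, one_mul, cc_self, map_mul, kap_E, cc_self, mul_smul_comm, smul_mul_assoc,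
        smul_add]
    · rw [if_neg hil, zero_mul, zero_mul, map_zero, add_zero, add_zero, kap_E_mul, mul_smul_comm, smul_comm]

/-- the scalars `1 + q^2 + ... + q^(2(n-1))` -/
def br (n : ℕ) : K := ∑ m ∈ Finset.range n, (q ^ 2) ^ m

variable {q}

theorem br_ne_zero (hq' : ∀ n : ℕ, 0 < n → q ^ n ≠ 1) (n : ℕ) (hn : 0 < n) : br q n ≠ 0 := by
  intro h
  have h1 := geom_sum_mul (q ^ 2) n
  unfold br at h
  rw [h, zero_mul, ← pow_mul] at h1
  exact hq' (2 * n) (by omega) (sub_eq_zero.1 h1.symm)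

theorem br_succ (n : ℕ) : br q (n + 1) = br q n + (q ^ 2) ^ n := by
  unfold br; rw [Finset.sum_range_succ]

theorem br_succ' (n : ℕ) : br q (n + 1) = 1 + q ^ 2 * br q n := by
  unfold br; rw [Finset.sum_range_succ', pow_zero, add_comm, Finset.mul_sum]
  congr 1
  apply Finset.sum_congr rfl
  intro m _; rw [pow_succ]; ring

variable (q)

theorem rr_pow_kap (hq : q ≠ 0) (i : Fin 2) (n : ℕ) (w : UU K q) :
    ((rr q hq i) ^ n) (kap q i w) = (q ^ 2) ^ n • kap q i (((rr q hq i) ^ n) w) := by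
  induction n with
  | zero => simp
  | succ n ih =>
    rw [pow_succ' (rr q hq i), Module.End.mul_apply, Module.End.mul_apply, ih, map_smul, rr_kap, smul_smul,
      ← pow_succ]

theorem rr_pow_E_mul (hq : q ≠ 0) (i : Fin 2) (n : ℕ) (w : UU K q) :
    ((rr q hq i) ^ (n + 1)) (E q i * w) =
      E q i * ((rr q hq i) ^ (n + 1)) w + br q (n + 1) • kap q i (((rr q hq i) ^ n) w) := by
  induction n with
  | zero => rw [zero_add, pow_one, rr_E_mul_self]; simp [br]
  | succ n ih =>
    rw [pow_succ', Module.End.mul_apply, ih, map_add, rr_E_mul_self, map_smul, rr_kap, ← Module.End.mul_apply,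
      ← Module.End.mul_apply, ← pow_succ', ← pow_succ', br_succ' (n + 1), smul_smul, add_smul, one_smul, add_assoc,
      mul_comm (br q (n + 1))]

theorem rr_pow_mul_E (hq : q ≠ 0) (i : Fin 2) (n : ℕ) (w : UU K q) :
    ((rr q hq i) ^ (n + 1)) (w * E q i) =
      br q (n + 1) • ((rr q hq i) ^ n) w + (q ^ 2) ^ (n + 1) • (((rr q hq i) ^ (n + 1)) w * E q i) := by
  induction n with
  | zero => rw [zero_add, pow_one, rr_mul_E_self]; simp [br]
  | succ n ih =>
    rw [pow_succ', Module.End.mul_apply, ih, map_add, map_smul, map_smul, rr_mul_E_self, ← Module.End.mul_apply,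
      ← Module.End.mul_apply, ← pow_succ', ← pow_succ', br_succ (n + 1), smul_add, smul_smul, add_smul,
      ← pow_succ, ← add_assoc]

/-- the skew derivations are locally nilpotent -/
theorem rr_nil (hq : q ≠ 0) (i : Fin 2) (w : UU K q) : ∃ n : ℕ, ((rr q hq i) ^ n) w = 0 := by
  have mono : ∀ (n m : ℕ) (w : UU K q), n ≤ m → ((rr q hq i) ^ n) w = 0 → ((rr q hq i) ^ m) w = 0 := by
    intro n m w hnm h
    obtain ⟨d, rfl⟩ := Nat.exists_eq_add_of_le hnm
    rw [add_comm, pow_add, Module.End.mul_apply, h, map_zero]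
  apply ind q
    { carrier := {w | ∃ n : ℕ, ((rr q hq i) ^ n) w = 0}
      add_mem' := by
        rintro a b ⟨n, hn⟩ ⟨m, hm⟩
        refine ⟨max n m, ?_⟩
        rw [map_add, mono n _ a (le_max_left _ _) hn, mono m _ b (le_max_right _ _) hm, add_zero]
      zero_mem' := ⟨0, by simp⟩
      smul_mem' := by
        rintro c a ⟨n, hn⟩
        exact ⟨n, by rw [map_smul, hn, smul_zero]⟩ }
  · exact ⟨1, by rw [pow_one, rr_one]⟩
  · rintro j w ⟨n, hn⟩
    by_cases hij : i = j
    · subst hij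
      refine ⟨n + 1, ?_⟩
      rw [rr_pow_E_mul, mono n (n + 1) w (by omega) hn, hn, mul_zero, map_zero, smul_zero, add_zero]
    · refine ⟨n, ?_⟩
      have : ∀ m, ((rr q hq i) ^ m) (E q j * w) = E q j * ((rr q hq i) ^ m) w := by
        intro m
        induction m with
        | zero => simp
        | succ m ih => rw [pow_succ', Module.End.mul_apply, ih, rr_E_mul_ne q hq hij, Module.End.mul_apply]
      rw [this, hn, mul_zero]

/-- Lemma I -/
theorem lemI (hq : q ≠ 0) (hq' : ∀ n : ℕ, 0 < n → q ^ n ≠ 1) (i : Fin 2) (a : UU K q) (ha : a ≠ 0)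
    (l s : ℤ) (hk : kap q i a = q ^ l • a) (hc : E q i * a = q ^ s • (a * E q i)) :
    ∃ m : ℕ, l - s = 2 * m := by
  classical
  have hex := rr_nil q hq i a
  have h0 : Nat.find hex ≠ 0 := by
    intro h
    have := Nat.find_spec hex
    rw [h, pow_zero, Module.End.one_apply] at this
    exact ha this
  obtain ⟨m, hm⟩ := Nat.exists_eq_succ_of_ne_zero h0
  have h1 : ((rr q hq i) ^ (m + 1)) a = 0 := by
    have := Nat.find_spec hex
    rwa [hm] at this
  have h2 : ((rr q hq i) ^ m) a ≠ 0 := Nat.find_min hex (by rw [hm]; exact Nat.lt_succ_self m)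
  have h3 := congrArg ((rr q hq i) ^ (m + 1)) hc
  rw [rr_pow_E_mul, map_smul, rr_pow_mul_E, h1, mul_zero, zero_add, zero_mul, smul_zero, add_zero] at h3
  have h4 : kap q i (((rr q hq i) ^ m) a) = q ^ (l - 2 * m) • ((rr q hq i) ^ m) a := by
    have h5 := rr_pow_kap q hq i m a
    rw [hk, map_smul] at h5
    have h6 : (q ^ 2) ^ m ≠ 0 := pow_ne_zero _ (pow_ne_zero _ hq)
    have h7 : kap q i (((rr q hq i) ^ m) a) = ((q ^ 2) ^ m)⁻¹ • (q ^ l • ((rr q hq i) ^ m) a) := by
      rw [h5, smul_smul, inv_mul_cancel₀ h6, one_smul]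
    rw [h7, smul_smul]
    congr 1
    rw [zpow_sub₀ hq, zpow_mul, zpow_natCast, div_eq_mul_inv, mul_comm]
    norm_cast
  rw [h4, smul_smul, smul_smul, ← sub_eq_zero, ← sub_smul, smul_eq_zero] at h3
  have h5 := h3.resolve_right h2
  have h6 : br q (m + 1) * (q ^ (l - 2 * m) - q ^ s) = 0 := by linear_combination h5
  have h7 := sub_eq_zero.1 ((mul_eq_zero.1 h6).resolve_left (br_ne_zero hq' (m + 1) (by omega)))
  refine ⟨m, ?_⟩
  by_contra hne
  have h8 : q ^ (l - 2 * m - s) = 1 := by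
    rw [zpow_sub₀ hq, h7, div_self (zpow_ne_zero _ hq)]
  have h9 : l - 2 * (m : ℤ) - s ≠ 0 := fun h => hne (by linarith)
  rcases Int.lt_or_gt_of_ne h9 with h | h
  · apply hq' (-(l - 2 * (m : ℤ) - s)).toNat (by omega)
    rw [← zpow_natCast, Int.toNat_of_nonneg (by omega), zpow_neg, h8, inv_one]
  · apply hq' (l - 2 * (m : ℤ) - s).toNat (by omega)
    rw [← zpow_natCast, Int.toNat_of_nonneg (by omega), h8]

end Pool.Agent.W420.Cen
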