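import Mathlib
import Pool.Agent.W420.Cen.Der

set_option autoImplicit false

namespace Pool.Agent.W420.Cen

variable {K : Type*} [Field K] (q : K)

/-- the degrees of the generators -/
def al (i : Fin 2) : ℤ × ℤ := if i = 0 then (1, 0) else (0, 1)

theorem serre_single {T : Type*} [Ring T] [Algebra K T] (a b : ℤ × ℤ) (x y : T) :
    serre q (AddMonoidAlgebra.single a x : AddMonoidAlgebra T (ℤ × ℤ)) (AddMonoidAlgebra.single b y) =
      AddMonoidAlgebra.single (a + a + a + b) (serre q x y) := by
  unfold serre
  simp only [pow_succ, pow_zero, one_mul, AddMonoidAlgebra.single_mul_single, AddMonoidAlgebra.smul_single]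
  rw [show a + a + b + a = a + a + a + b by abel, show a + b + (a + a) = a + a + a + b by abel,
    show b + (a + a + a) = a + a + a + b by abel, ← AddMonoidAlgebra.single_sub, ← AddMonoidAlgebra.single_add,
    ← AddMonoidAlgebra.single_sub]

/-- the grading homomorphism -/
noncomputable def gam : UU K q →ₐ[K] AddMonoidAlgebra (UU K q) (ℤ × ℤ) :=
  lft q (fun i => AddMonoidAlgebra.single (al i) (E q i)) (fun i j h => by
    rw [serre_single, serre_E q i j h, AddMonoidAlgebra.single_zero])

/-- homogeneous components -/
noncomputable def cp (ν : ℤ × ℤ) : UU K q →ₗ[K] UU K q where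
  toFun w := (gam q w).coeff ν
  map_add' a b := by rw [map_add]; rfl
  map_smul' a b := by rw [map_smul]; rfl

theorem cp_apply (ν : ℤ × ℤ) (w : UU K q) : cp q ν w = (gam q w).coeff ν := rfl

theorem cp_E_mul (ν : ℤ × ℤ) (i : Fin 2) (w : UU K q) : cp q ν (E q i * w) = E q i * cp q (ν - al i) w := by
  rw [cp_apply, map_mul]
  unfold gam
  rw [lft_E, AddMonoidAlgebra.coeff_single_mul_apply, cp_apply, neg_add_eq_sub]
  rfl

theorem cp_mul_E (ν : ℤ × ℤ) (i : Fin 2) (w : UU K q) : cp q ν (w * E q i) = cp q (ν - al i) w * E q i := by
  rw [cp_apply, map_mul]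
  unfold gam
  rw [lft_E, AddMonoidAlgebra.coeff_mul_single_apply, cp_apply, sub_eq_add_neg]
  rfl

theorem cp_one (ν : ℤ × ℤ) : cp q ν 1 = if ν = 0 then 1 else 0 := by
  rw [cp_apply, map_one, AddMonoidAlgebra.one_def, AddMonoidAlgebra.coeff_single, Finsupp.single_apply]
  simp only [eq_comm]

theorem cp_cp (w : UU K q) (μ ν : ℤ × ℤ) : cp q μ (cp q ν w) = if μ = ν then cp q ν w else 0 := by
  have h : w ∈ ({ carrier := {w | ∀ μ ν, cp q μ (cp q ν w) = if μ = ν then cp q ν w else 0}
                  add_mem' := by
                    intro a b ha hb μ ν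
                    rw [map_add, map_add, ha, hb]; split_ifs <;> simp
                  zero_mem' := by intro μ ν; simp
                  smul_mem' := by
                    intro c a ha μ ν
                    rw [map_smul, map_smul, ha]; split_ifs <;> simp } : Submodule K (UU K q)) := by
    apply ind
    · intro μ ν
      rw [cp_one]
      by_cases hν : ν = 0
      · rw [if_pos hν, cp_one]; subst hν; simp
      · rw [if_neg hν]; simp
    · intro i w hw μ ν
      rw [cp_E_mul, cp_E_mul, hw]
      by_cases h : μ = ν
      · subst h; simp
      · rw [if_neg h, if_neg (fun h' => h (sub_left_injective h')), mul_zero]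
  exact h μ ν

theorem cp_sum (w : UU K q) : ∃ s : Finset (ℤ × ℤ), w = ∑ ν ∈ s, cp q ν w := by
  refine ⟨(gam q w).coeff.support, ?_⟩
  have key : ∀ w : UU K q, (AddMonoidAlgebra.coeff (gam q w)).sum (fun _ u => u) = w := by
    intro w
    let f : UU K q →ₗ[K] UU K q :=
      { toFun := fun w => (AddMonoidAlgebra.coeff (gam q w)).sum (fun _ u => u)
        map_add' := by
          intro a b
          rw [map_add, AddMonoidAlgebra.coeff_add, Finsupp.sum_add_index'] <;> simp
        map_smul' := by
          intro c a
          rw [map_smul, AddMonoidAlgebra.coeff_smul, Finsupp.sum_smul_index', RingHom.id_apply, Finsupp.smul_sum]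
          intro i; rfl }
    have : f w = (LinearMap.id : UU K q →ₗ[K] UU K q) w := by
      apply lin_ext q f LinearMap.id
      · change (AddMonoidAlgebra.coeff (gam q 1)).sum (fun _ u => u) = 1
        rw [map_one, AddMonoidAlgebra.one_def, AddMonoidAlgebra.coeff_single, Finsupp.sum_single_index]
        rfl
      · intro i w hw
        change (AddMonoidAlgebra.coeff (gam q (E q i * w))).sum (fun _ u => u) = E q i * w
        change (AddMonoidAlgebra.coeff (gam q w)).sum (fun _ u => u) = w at hw
        have h1 : (AddMonoidAlgebra.coeff (gam q (E q i * w))).sum (fun _ u => u) =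
            ∑ ν ∈ (AddMonoidAlgebra.coeff (gam q w)).support, cp q (ν + al i) (E q i * w) := by
          rw [Finsupp.sum, ← Finset.sum_image (f := fun ν => cp q ν (E q i * w)) (g := fun ν => ν + al i)]
          · apply Finset.sum_subset
            · intro ν hν
              rw [Finsupp.mem_support_iff, ← cp_apply, cp_E_mul] at hν
              rw [Finset.mem_image]
              refine ⟨ν - al i, ?_, by simp⟩
              rw [Finsupp.mem_support_iff, ← cp_apply]
              intro h0; rw [h0, mul_zero] at hν; exact hν rfl
            · intro ν _ hν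
              rw [Finsupp.notMem_support_iff] at hν
              exact hν
          · intro a _ b _ h
            exact add_right_cancel h
        have h2 : E q i * w = E q i * (AddMonoidAlgebra.coeff (gam q w)).sum (fun _ u => u) := by rw [hw]
        rw [h1, h2, Finsupp.sum, Finset.mul_sum]
        apply Finset.sum_congr rfl
        intro ν _
        have h3 : cp q (ν + al i) (E q i * w) = E q i * (AddMonoidAlgebra.coeff (gam q w)) ν := by
          rw [cp_E_mul, add_sub_cancel_right]
          rfl
        rw [← h3]
        congr 1
        rw [← Finset.mul_sum]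
        exact h2.symm
    exact this
  exact (key w).symm

/-- the pairing of a degree with a simple root -/
def wt (i : Fin 2) (ν : ℤ × ℤ) : ℤ := if i = 0 then 2 * (ν.1 - ν.2) else 2 * (ν.2 - ν.1)

theorem wt_add (i : Fin 2) (μ ν : ℤ × ℤ) : wt i (μ + ν) = wt i μ + wt i ν := by
  unfold wt; split_ifs <;> simp <;> ring

theorem wt_sub (i : Fin 2) (μ ν : ℤ × ℤ) : wt i (μ - ν) = wt i μ - wt i ν := by
  unfold wt; split_ifs <;> simp <;> ring

theorem cc_eq (i j : Fin 2) : cc q i j = q ^ (wt i (al j)) := by
  fin_cases i <;> fin_cases j <;> simp [cc, wt, al]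

theorem kap_cp_comm (i : Fin 2) (ν : ℤ × ℤ) (w : UU K q) : kap q i (cp q ν w) = cp q ν (kap q i w) := by
  have h : w ∈ ({ carrier := {w | ∀ ν, kap q i (cp q ν w) = cp q ν (kap q i w)}
                  add_mem' := by
                    intro a b ha hb ν
                    rw [map_add, map_add, ha, hb, map_add, map_add]
                  zero_mem' := by intro ν; simp
                  smul_mem' := by
                    intro c a ha ν
                    rw [map_smul, map_smul, ha, map_smul, map_smul] } : Submodule K (UU K q)) := by
    apply ind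
    · intro ν
      rw [cp_one, map_one, cp_one]; split_ifs <;> simp
    · intro j w hw ν
      rw [cp_E_mul, kap_E_mul, kap_E_mul, map_smul, cp_E_mul, hw]
  exact h ν

theorem kap_cp (hq : q ≠ 0) (i : Fin 2) (ν : ℤ × ℤ) (w : UU K q) :
    kap q i (cp q ν w) = q ^ (wt i ν) • cp q ν w := by
  have h : w ∈ ({ carrier := {w | ∀ ν, kap q i (cp q ν w) = q ^ (wt i ν) • cp q ν w}
                  add_mem' := by
                    intro a b ha hb ν
                    rw [map_add, map_add, ha, hb, smul_add]
                  zero_mem' := by intro ν; simp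
                  smul_mem' := by
                    intro c a ha ν
                    rw [map_smul, map_smul, ha, smul_comm] } : Submodule K (UU K q)) := by
    apply ind
    · intro ν
      rw [cp_one]
      by_cases hν : ν = 0
      · rw [if_pos hν, map_one, hν]; simp [wt]
      · rw [if_neg hν]; simp
    · intro j w hw ν
      rw [cp_E_mul, kap_E_mul, hw, cc_eq, mul_smul_comm, smul_smul, ← zpow_add₀ hq, ← wt_add, add_sub_cancel]
  exact h ν

/-- the augmentation -/
noncomputable def eps : UU K q →ₐ[K] K := lft q (fun _ => 0) (fun i j h => by simp [serre])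

@[simp] theorem eps_E_mul (i : Fin 2) (w : UU K q) : eps q (E q i * w) = 0 := by
  rw [map_mul]; unfold eps; rw [lft_E, zero_mul]

theorem cp_low (w : UU K q) (ν : ℤ × ℤ) (hν : ν.1 + ν.2 ≤ 0) :
    cp q ν w = if ν = 0 then algebraMap K (UU K q) (eps q w) else 0 := by
  have h : w ∈ ({ carrier := {w | ∀ ν : ℤ × ℤ, ν.1 + ν.2 ≤ 0 →
                    cp q ν w = if ν = 0 then algebraMap K (UU K q) (eps q w) else 0}
                  add_mem' := by
                    intro a b ha hb ν hν
                    rw [map_add, map_add, ha ν hν, hb ν hν, map_add]; split_ifs <;> simp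
                  zero_mem' := by intro ν _; simp
                  smul_mem' := by
                    intro c a ha ν hν
                    rw [map_smul, map_smul, ha ν hν]
                    split_ifs
                    · rw [smul_eq_mul, map_mul, Algebra.smul_def]
                    · simp } : Submodule K (UU K q)) := by
    apply ind
    · intro ν _
      rw [cp_one, map_one, map_one]
    · intro i w hw ν hν
      have h1 : (al i).1 + (al i).2 = 1 := by unfold al; split_ifs <;> simp
      have h2 : (ν - al i).1 + (ν - al i).2 ≤ 0 := by
        rw [Prod.fst_sub, Prod.snd_sub]; omega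
      have h3 : ν - al i ≠ 0 := by
        intro h0
        have h4 : (ν - al i).1 + (ν - al i).2 = 0 := by rw [h0]; rfl
        rw [Prod.fst_sub, Prod.snd_sub] at h4; omega
      rw [cp_E_mul, hw _ h2, if_neg h3, mul_zero, eps_E_mul, map_zero, ite_self]
  exact h ν hν

end Pool.Agent.W420.Cen
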