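import Mathlib
import Pool.Agent.W420.Cen.Gr

set_option autoImplicit false

namespace Pool.Agent.W420.Cen

variable {K : Type*} [Field K] (q : K)

/-- the operators `u ↦ -κ_i(u) E_i` -/
noncomputable def Gop (i : Fin 2) : Module.End K (UU K q) :=
  -((LinearMap.mulRight K (E q i)) ∘ₗ (kap q i).toLinearMap)

theorem Gop_apply (i : Fin 2) (u : UU K q) : Gop q i u = -(kap q i u * E q i) := rfl

theorem serre_Gop (hq : q ≠ 0) (i j : Fin 2) (hij : i ≠ j) : serre q (Gop q i) (Gop q j) = 0 := by
  have hs := serre_E q i j hij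
  unfold serre at hs
  ext u
  unfold serre
  simp only [pow_succ, pow_zero, one_mul, LinearMap.sub_apply, LinearMap.add_apply, LinearMap.smul_apply,
    Module.End.mul_apply, Gop_apply, map_neg, map_mul, kap_E, map_smul, kap_kap q hij hq, kap_kap q hij.symm hq,
    cc_self, cc_ne q hij, cc_ne q hij.symm, LinearMap.zero_apply, neg_mul, neg_neg, mul_smul_comm,
    smul_mul_assoc, smul_smul, mul_assoc]
  simp only [pow_succ, pow_zero, one_mul, mul_assoc] at hs
  set w := kap q i (kap q i u) with hw
  have h1 := congrArg (fun z => w * z) hs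
  simp only [mul_sub, mul_add, mul_zero, mul_smul_comm] at h1
  linear_combination (norm := skip) (-1 : K) • h1
  match_scalars <;> field_simp <;> ring

/-- the algebra homomorphism behind the antipode -/
noncomputable def Ghom (hq : q ≠ 0) : UU K q →ₐ[K] Module.End K (UU K q) :=
  lft q (Gop q) (fun i j h => serre_Gop q hq i j h)

/-- the (braided) antipode -/
noncomputable def Sa (hq : q ≠ 0) : UU K q →ₗ[K] UU K q where
  toFun w := Ghom q hq w 1
  map_add' a b := by rw [map_add]; rfl
  map_smul' a b := by rw [map_smul]; rfl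

theorem Sa_one (hq : q ≠ 0) : Sa q hq 1 = 1 := by
  change (Ghom q hq 1) 1 = 1
  rw [map_one (Ghom q hq)]; rfl

theorem Sa_E_mul (hq : q ≠ 0) (i : Fin 2) (w : UU K q) :
    Sa q hq (E q i * w) = -(kap q i (Sa q hq w) * E q i) := by
  change Ghom q hq (E q i * w) 1 = _
  rw [map_mul, Module.End.mul_apply]
  have : Ghom q hq (E q i) = Gop q i := by unfold Ghom; rw [lft_E]
  rw [this, Gop_apply]
  rfl

theorem Sa_kap (hq : q ≠ 0) (i : Fin 2) (w : UU K q) : Sa q hq (kap q i w) = kap q i (Sa q hq w) := by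
  apply lin_ext q (Sa q hq ∘ₗ (kap q i).toLinearMap) ((kap q i).toLinearMap ∘ₗ Sa q hq)
  · simp [Sa_one]
  · intro j w h
    simp only [LinearMap.comp_apply, AlgHom.toLinearMap_apply] at h ⊢
    rw [kap_E_mul, map_smul, Sa_E_mul, Sa_E_mul, h, map_neg, map_mul, kap_E, kap_comm, mul_smul_comm, smul_neg]

theorem nm (a b : UU K q) : -a * b = -(a * b) := neg_mul a b

theorem mn (a b : UU K q) : a * -b = -(a * b) := mul_neg a b

theorem nn (a : UU K q) : - -a = a := neg_neg a

theorem Sa_mul_E (hq : q ≠ 0) (i : Fin 2) (w : UU K q) :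
    Sa q hq (w * E q i) = -(E q i * Sa q hq (kap q i w)) := by
  apply lin_ext q (Sa q hq ∘ₗ LinearMap.mulRight K (E q i))
    (-((LinearMap.mulLeft K (E q i)) ∘ₗ Sa q hq ∘ₗ (kap q i).toLinearMap))
  · have := Sa_E_mul q hq i 1
    rw [mul_one, Sa_one, map_one, one_mul] at this
    simp [Sa_one, this]
  · intro j w h
    simp only [LinearMap.comp_apply, AlgHom.toLinearMap_apply, LinearMap.mulRight_apply, LinearMap.neg_apply,
      LinearMap.mulLeft_apply] at h ⊢
    have h' : Sa q hq (w * E q i) = -(E q i * Sa q hq (kap q i w)) := h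
    have kneg : ∀ a : UU K q, kap q j (-a) = -(kap q j a) := fun a => map_neg _ a
    have e1 : Sa q hq (E q j * w * E q i) = cc q i j • (E q i * (kap q j (Sa q hq (kap q i w)) * E q j)) := by
      rw [mul_assoc, Sa_E_mul, h', kneg, kap_E_mul, cc_comm q j i, nm, nn, smul_mul_assoc, mul_assoc]
    have e2 : E q i * Sa q hq (kap q i (E q j * w)) =
        -(cc q i j • (E q i * (kap q j (Sa q hq (kap q i w)) * E q j))) := by
      have e3 : Sa q hq (kap q i (E q j * w)) = -(cc q i j • (kap q j (Sa q hq (kap q i w)) * E q j)) := by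
        rw [kap_E_mul, map_smul, Sa_E_mul, smul_neg]
      rw [e3, mn, mul_smul_comm]
    change Sa q hq (E q j * w * E q i) = -(E q i * Sa q hq (kap q i (E q j * w)))
    rw [e1, e2, nn]

theorem Sa_Sa_E_mul (hq : q ≠ 0) (i : Fin 2) (w : UU K q) :
    Sa q hq (Sa q hq (E q i * w)) = E q i * kap q i (kap q i (Sa q hq (Sa q hq w))) := by
  rw [Sa_E_mul, map_neg, Sa_mul_E, neg_neg, Sa_kap, Sa_kap]

/-- the exponent in the square of the antipode -/
def ex (ν : ℤ × ℤ) : ℤ := 2 * (ν.1 - ν.2) ^ 2 - 2 * (ν.1 + ν.2)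

theorem Sa_Sa (hq : q ≠ 0) (w : UU K q) (ν : ℤ × ℤ) :
    Sa q hq (Sa q hq (cp q ν w)) = q ^ (ex ν) • cp q ν w := by
  have h : w ∈ ({ carrier := {w | ∀ ν, Sa q hq (Sa q hq (cp q ν w)) = q ^ (ex ν) • cp q ν w}
                  add_mem' := by
                    intro a b ha hb ν
                    rw [map_add, map_add, map_add, ha, hb, smul_add]
                  zero_mem' := by intro ν; simp
                  smul_mem' := by
                    intro c a ha ν
                    rw [map_smul, map_smul, map_smul, ha, smul_comm] } : Submodule K (UU K q)) := by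
    apply ind
    · intro ν
      rw [cp_one]
      by_cases hν : ν = 0
      · rw [if_pos hν, Sa_one, Sa_one, hν]; simp [ex]
      · rw [if_neg hν]; simp
    · intro j w hw ν
      rw [cp_E_mul, Sa_Sa_E_mul, hw, map_smul, map_smul, kap_cp q hq, map_smul, kap_cp q hq, mul_smul_comm,
        mul_smul_comm, mul_smul_comm, smul_smul, smul_smul, ← zpow_add₀ hq, ← zpow_add₀ hq]
      congr 2
      fin_cases j
      · simp only [ex, wt, al, Fin.zero_eta, Fin.isValue, if_true, Prod.fst_sub, Prod.snd_sub, sub_zero]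
        ring
      · simp only [ex, wt, al, Fin.mk_one, Fin.isValue, one_ne_zero, if_false, Prod.fst_sub, Prod.snd_sub, sub_zero]
        ring
  exact h ν

end Pool.Agent.W420.Cen
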