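import Mathlib
import Pool.Agent.W420.Cen.Ant

set_option autoImplicit false

open TensorProduct

namespace Pool.Agent.W420.Cen

variable {K : Type*} [Field K] (q : K)

/-- the square of the algebra, as a vector space -/
abbrev VV (K : Type*) [Field K] (q : K) : Type _ := (UU K q) ⊗[K] (UU K q)

/-- left multiplication on the first factor -/
noncomputable def Xo (i : Fin 2) : Module.End K (VV K q) := LinearMap.rTensor (UU K q) (LinearMap.mulLeft K (E q i))

/-- twisted left multiplication on the second factor -/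
noncomputable def Yo (i : Fin 2) : Module.End K (VV K q) :=
  TensorProduct.map (kap q i).toLinearMap (LinearMap.mulLeft K (E q i))

@[simp] theorem Xo_tmul (i : Fin 2) (a b : UU K q) : Xo q i (a ⊗ₜ b) = (E q i * a) ⊗ₜ b := rfl

@[simp] theorem Yo_tmul (i : Fin 2) (a b : UU K q) : Yo q i (a ⊗ₜ b) = (kap q i a) ⊗ₜ (E q i * b) := rfl

theorem serre_Xo (i j : Fin 2) (hij : i ≠ j) : serre q (Xo q i) (Xo q j) = 0 := by
  have hs := serre_E q i j hij
  unfold serre at hs
  apply TensorProduct.ext'
  intro a b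
  unfold serre
  simp only [pow_succ, pow_zero, one_mul, LinearMap.sub_apply, LinearMap.add_apply, LinearMap.smul_apply,
    Module.End.mul_apply, Xo_tmul, LinearMap.zero_apply]
  simp only [pow_succ, pow_zero, one_mul, mul_assoc] at hs
  have h1 := congrArg (fun z => (z * a) ⊗ₜ[K] b) hs
  simp only [sub_mul, add_mul, smul_mul_assoc, zero_mul, TensorProduct.sub_tmul, TensorProduct.add_tmul,
    TensorProduct.zero_tmul, mul_assoc] at h1
  simpa only [TensorProduct.smul_tmul'] using h1

theorem serre_Yo (hq : q ≠ 0) (i j : Fin 2) (hij : i ≠ j) : serre q (Yo q i) (Yo q j) = 0 := by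
  have hs := serre_E q i j hij
  unfold serre at hs
  apply TensorProduct.ext'
  intro a b
  unfold serre
  simp only [pow_succ, pow_zero, one_mul, LinearMap.sub_apply, LinearMap.add_apply, LinearMap.smul_apply,
    Module.End.mul_apply, Yo_tmul, LinearMap.zero_apply, kap_kap q hij hq, kap_kap q hij.symm hq]
  simp only [pow_succ, pow_zero, one_mul, mul_assoc] at hs
  have h1 := congrArg (fun z => (kap q i (kap q i a)) ⊗ₜ[K] (z * b)) hs
  simp only [sub_mul, add_mul, smul_mul_assoc, zero_mul, TensorProduct.tmul_sub, TensorProduct.tmul_add,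
    TensorProduct.tmul_zero, mul_assoc, TensorProduct.tmul_smul] at h1
  exact h1

theorem serre_XY (hq : q ≠ 0) (i j : Fin 2) (hij : i ≠ j) :
    serre q (Xo q i + Yo q i) (Xo q j + Yo q j) = 0 := by
  have key : ∀ i j, Yo q i * Xo q j = cc q i j • (Xo q j * Yo q i) := by
    intro i j
    apply TensorProduct.ext'
    intro a b
    simp only [Module.End.mul_apply, LinearMap.smul_apply, Yo_tmul, Xo_tmul, kap_E_mul, TensorProduct.smul_tmul']
  rw [serre_add q hq, serre_Xo q i j hij, serre_Yo q hq i j hij, add_zero]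
  · rw [key, cc_self]
  · rw [key, cc_ne q hij]
  · rw [key, cc_ne q hij.symm]
  · rw [key, cc_self]

/-- the homomorphism behind the coproduct -/
noncomputable def rho (hq : q ≠ 0) : UU K q →ₐ[K] Module.End K (VV K q) :=
  lft q (fun i => Xo q i + Yo q i) (fun i j h => serre_XY q hq i j h)

/-- the (braided) coproduct -/
noncomputable def cop (hq : q ≠ 0) : UU K q →ₗ[K] VV K q where
  toFun w := rho q hq w (1 ⊗ₜ 1)
  map_add' a b := by rw [map_add]; rfl
  map_smul' a b := by rw [map_smul]; rfl

theorem cop_one (hq : q ≠ 0) : cop q hq 1 = 1 ⊗ₜ 1 := by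
  change (rho q hq 1) (1 ⊗ₜ 1) = _
  rw [map_one (rho q hq)]; rfl

theorem cop_E_mul (hq : q ≠ 0) (i : Fin 2) (w : UU K q) :
    cop q hq (E q i * w) = Xo q i (cop q hq w) + Yo q i (cop q hq w) := by
  change (rho q hq (E q i * w)) (1 ⊗ₜ 1) = _
  rw [map_mul, Module.End.mul_apply]
  have : rho q hq (E q i) = Xo q i + Yo q i := by unfold rho; rw [lft_E]
  rw [this]; rfl

/-- right multiplication on the first factor -/
noncomputable def Xr (i : Fin 2) : Module.End K (VV K q) :=
  TensorProduct.map (LinearMap.mulRight K (E q i)) (kap q i).toLinearMap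

/-- right multiplication on the second factor -/
noncomputable def Yr (i : Fin 2) : Module.End K (VV K q) := LinearMap.lTensor (UU K q) (LinearMap.mulRight K (E q i))

@[simp] theorem Xr_tmul (i : Fin 2) (a b : UU K q) : Xr q i (a ⊗ₜ b) = (a * E q i) ⊗ₜ (kap q i b) := rfl

@[simp] theorem Yr_tmul (i : Fin 2) (a b : UU K q) : Yr q i (a ⊗ₜ b) = a ⊗ₜ (b * E q i) := rfl

theorem comm_ops (i j : Fin 2) : (Xo q j + Yo q j) * (Xr q i + Yr q i) = (Xr q i + Yr q i) * (Xo q j + Yo q j) := by
  apply TensorProduct.ext'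
  intro a b
  simp only [Module.End.mul_apply, LinearMap.add_apply, Yo_tmul, Xo_tmul, Xr_tmul, Yr_tmul, map_add, map_mul, kap_E,
    mul_assoc, mul_smul_comm, smul_mul_assoc, TensorProduct.tmul_smul, TensorProduct.smul_tmul', cc_comm q j i]
  abel

theorem cop_mul_E (hq : q ≠ 0) (i : Fin 2) (w : UU K q) :
    cop q hq (w * E q i) = Xr q i (cop q hq w) + Yr q i (cop q hq w) := by
  apply lin_ext q (cop q hq ∘ₗ LinearMap.mulRight K (E q i)) ((Xr q i + Yr q i) ∘ₗ cop q hq)
  · simp only [LinearMap.comp_apply, LinearMap.mulRight_apply, one_mul, LinearMap.add_apply, cop_one, Xr_tmul,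
      Yr_tmul, map_one]
    have := cop_E_mul q hq i 1
    rw [mul_one, cop_one] at this
    rw [this]; simp
  · intro j w h
    simp only [LinearMap.comp_apply, LinearMap.mulRight_apply] at h ⊢
    rw [mul_assoc, cop_E_mul, h, cop_E_mul]
    have := LinearMap.congr_fun (comm_ops q i j) (cop q hq w)
    simpa only [Module.End.mul_apply, LinearMap.add_apply] using this

/-- counits -/
noncomputable def cr : VV K q →ₗ[K] UU K q :=
  (TensorProduct.rid K (UU K q)).toLinearMap ∘ₗ LinearMap.lTensor (UU K q) (eps q).toLinearMap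

noncomputable def cl : VV K q →ₗ[K] UU K q :=
  (TensorProduct.lid K (UU K q)).toLinearMap ∘ₗ LinearMap.rTensor (UU K q) (eps q).toLinearMap

@[simp] theorem cr_tmul (a b : UU K q) : cr q (a ⊗ₜ b) = eps q b • a := by simp [cr]

@[simp] theorem cl_tmul (a b : UU K q) : cl q (a ⊗ₜ b) = eps q a • b := by simp [cl]

theorem eps_kap (i : Fin 2) (w : UU K q) : eps q (kap q i w) = eps q w := by
  apply lin_ext q ((eps q).toLinearMap ∘ₗ (kap q i).toLinearMap) (eps q).toLinearMap
  · simp
  · intro j w h
    simp only [LinearMap.comp_apply, AlgHom.toLinearMap_apply] at h ⊢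
    rw [kap_E_mul, map_smul, eps_E_mul, eps_E_mul, smul_zero]

theorem cr_cop (hq : q ≠ 0) (w : UU K q) : cr q (cop q hq w) = w := by
  apply lin_ext q (cr q ∘ₗ cop q hq) LinearMap.id
  · simp [cop_one]
  · intro j w h
    simp only [LinearMap.comp_apply, LinearMap.id_apply] at h ⊢
    rw [cop_E_mul, map_add]
    have h1 : cr q ∘ₗ Xo q j = LinearMap.mulLeft K (E q j) ∘ₗ cr q := by
      apply TensorProduct.ext'
      intro a b
      simp
    have h2 : cr q ∘ₗ Yo q j = 0 := by
      apply TensorProduct.ext'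
      intro a b
      simp
    have h3 := LinearMap.congr_fun h1 (cop q hq w)
    have h4 := LinearMap.congr_fun h2 (cop q hq w)
    simp only [LinearMap.comp_apply, LinearMap.mulLeft_apply, LinearMap.zero_apply] at h3 h4
    rw [h3, h4, h, add_zero]

theorem cl_cop (hq : q ≠ 0) (w : UU K q) : cl q (cop q hq w) = w := by
  apply lin_ext q (cl q ∘ₗ cop q hq) LinearMap.id
  · simp [cop_one]
  · intro j w h
    simp only [LinearMap.comp_apply, LinearMap.id_apply] at h ⊢
    rw [cop_E_mul, map_add]
    have h1 : cl q ∘ₗ Yo q j = LinearMap.mulLeft K (E q j) ∘ₗ cl q := by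
      apply TensorProduct.ext'
      intro a b
      simp [eps_kap]
    have h2 : cl q ∘ₗ Xo q j = 0 := by
      apply TensorProduct.ext'
      intro a b
      simp
    have h3 := LinearMap.congr_fun h1 (cop q hq w)
    have h4 := LinearMap.congr_fun h2 (cop q hq w)
    simp only [LinearMap.comp_apply, LinearMap.mulLeft_apply, LinearMap.zero_apply] at h3 h4
    rw [h3, h4, h, zero_add]

/-- `a ⊗ b ↦ S(a) b` -/
noncomputable def mu (hq : q ≠ 0) : VV K q →ₗ[K] UU K q :=
  LinearMap.mul' K (UU K q) ∘ₗ LinearMap.rTensor (UU K q) (Sa q hq)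

@[simp] theorem mu_tmul (hq : q ≠ 0) (a b : UU K q) : mu q hq (a ⊗ₜ b) = Sa q hq a * b := by simp [mu]

theorem mu_cop (hq : q ≠ 0) (w : UU K q) : mu q hq (cop q hq w) = algebraMap K (UU K q) (eps q w) := by
  apply lin_ext q (mu q hq ∘ₗ cop q hq) ((Algebra.linearMap K (UU K q)) ∘ₗ (eps q).toLinearMap)
  · simp [cop_one, Sa_one]
  · intro j w _
    simp only [LinearMap.comp_apply, AlgHom.toLinearMap_apply]
    rw [cop_E_mul, eps_E_mul, map_zero]
    have h1 : mu q hq ∘ₗ (Xo q j + Yo q j) = 0 := by
      apply TensorProduct.ext'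
      intro a b
      simp only [LinearMap.comp_apply, LinearMap.add_apply, map_add, Xo_tmul, Yo_tmul, mu_tmul, Sa_E_mul, Sa_kap,
        LinearMap.zero_apply]
      rw [nm, mul_assoc]
      exact neg_add_cancel _
    have h3 := LinearMap.congr_fun h1 (cop q hq w)
    simpa only [LinearMap.comp_apply, LinearMap.add_apply, LinearMap.zero_apply] using h3

end Pool.Agent.W420.Cen
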