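import Mathlib
import Pool.Agent.W420.Cen.Cop

set_option autoImplicit false

open TensorProduct

namespace Pool.Agent.W420.Cen

variable {K : Type*} [Field K] (q : K)

/-- the projection of the second factor on a degree -/
noncomputable def pr (ν : ℤ × ℤ) : Module.End K (VV K q) := LinearMap.lTensor (UU K q) (cp q ν)

@[simp] theorem pr_tmul (ν : ℤ × ℤ) (a b : UU K q) : pr q ν (a ⊗ₜ b) = a ⊗ₜ (cp q ν b) := rfl

/-- the projection of the first factor on a degree -/
noncomputable def pl (ν : ℤ × ℤ) : Module.End K (VV K q) := LinearMap.rTensor (UU K q) (cp q ν)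

@[simp] theorem pl_tmul (ν : ℤ × ℤ) (a b : UU K q) : pl q ν (a ⊗ₜ b) = (cp q ν a) ⊗ₜ b := rfl

/-- right multiplication on the first factor, untwisted -/
noncomputable def XR (i : Fin 2) : Module.End K (VV K q) := LinearMap.rTensor (UU K q) (LinearMap.mulRight K (E q i))

@[simp] theorem XR_tmul (i : Fin 2) (a b : UU K q) : XR q i (a ⊗ₜ b) = (a * E q i) ⊗ₜ b := rfl

theorem pr_Xo (ν : ℤ × ℤ) (i : Fin 2) (t : VV K q) : pr q ν (Xo q i t) = Xo q i (pr q ν t) := by
  have : pr q ν ∘ₗ Xo q i = Xo q i ∘ₗ pr q ν := by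
    apply TensorProduct.ext'; intro a b; simp
  exact LinearMap.congr_fun this t

theorem pr_Yo (ν : ℤ × ℤ) (i : Fin 2) (t : VV K q) : pr q ν (Yo q i t) = Yo q i (pr q (ν - al i) t) := by
  have : pr q ν ∘ₗ Yo q i = Yo q i ∘ₗ pr q (ν - al i) := by
    apply TensorProduct.ext'; intro a b; simp [cp_E_mul]
  exact LinearMap.congr_fun this t

theorem pr_Xr (hq : q ≠ 0) (ν : ℤ × ℤ) (i : Fin 2) (t : VV K q) :
    pr q ν (Xr q i t) = q ^ (wt i ν) • XR q i (pr q ν t) := by
  have : pr q ν ∘ₗ Xr q i = q ^ (wt i ν) • (XR q i ∘ₗ pr q ν) := by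
    apply TensorProduct.ext'; intro a b
    simp only [LinearMap.comp_apply, Xr_tmul, pr_tmul, LinearMap.smul_apply, XR_tmul, ← kap_cp_comm, kap_cp q hq,
      TensorProduct.tmul_smul]
  exact LinearMap.congr_fun this t

theorem pr_Yr (ν : ℤ × ℤ) (i : Fin 2) (t : VV K q) : pr q ν (Yr q i t) = Yr q i (pr q (ν - al i) t) := by
  have : pr q ν ∘ₗ Yr q i = Yr q i ∘ₗ pr q (ν - al i) := by
    apply TensorProduct.ext'; intro a b; simp [cp_mul_E]
  exact LinearMap.congr_fun this t

theorem pl_Xo (ν : ℤ × ℤ) (i : Fin 2) (t : VV K q) : pl q ν (Xo q i t) = Xo q i (pl q (ν - al i) t) := by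
  have : pl q ν ∘ₗ Xo q i = Xo q i ∘ₗ pl q (ν - al i) := by
    apply TensorProduct.ext'; intro a b; simp [cp_E_mul]
  exact LinearMap.congr_fun this t

theorem pl_Yo (ν : ℤ × ℤ) (i : Fin 2) (t : VV K q) : pl q ν (Yo q i t) = Yo q i (pl q ν t) := by
  have : pl q ν ∘ₗ Yo q i = Yo q i ∘ₗ pl q ν := by
    apply TensorProduct.ext'; intro a b; simp [kap_cp_comm]
  exact LinearMap.congr_fun this t

/-- the coproduct respects degrees -/
theorem bideg (hq : q ≠ 0) (w : UU K q) (μ ν : ℤ × ℤ) :
    pl q μ (pr q ν (cop q hq w)) = pl q μ (pr q ν (cop q hq (cp q (μ + ν) w))) := by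
  have h : w ∈ ({ carrier := {w | ∀ μ ν, pl q μ (pr q ν (cop q hq w)) =
                    pl q μ (pr q ν (cop q hq (cp q (μ + ν) w)))}
                  add_mem' := by
                    intro a b ha hb μ ν
                    simp only [map_add, ha μ ν, hb μ ν]
                  zero_mem' := by intro μ ν; simp
                  smul_mem' := by
                    intro c a ha μ ν
                    simp only [map_smul, ha μ ν] } : Submodule K (UU K q)) := by
    apply ind
    · intro μ ν
      rw [cop_one, pr_tmul, pl_tmul, cp_one, cp_one, cp_one]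
      by_cases h1 : μ + ν = 0
      · rw [if_pos h1, cop_one, pr_tmul, pl_tmul, cp_one, cp_one]
      · rw [if_neg h1]
        simp only [map_zero]
        by_cases h2 : μ = 0
        · have h3 : ν ≠ 0 := fun h3 => h1 (by rw [h2, h3, add_zero])
          rw [if_neg h3, TensorProduct.tmul_zero]
        · rw [if_neg h2, TensorProduct.zero_tmul]
    · intro i w hw μ ν
      rw [cop_E_mul, cp_E_mul, cop_E_mul]
      simp only [map_add, pr_Xo, pr_Yo, pl_Xo, pl_Yo]
      rw [hw (μ - al i) ν, hw μ (ν - al i), show μ - al i + ν = μ + ν - al i by abel,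
        show μ + (ν - al i) = μ + ν - al i by abel]
  exact h μ ν

/-- slices by functionals -/
noncomputable def sl (φ : UU K q →ₗ[K] K) : VV K q →ₗ[K] UU K q :=
  (TensorProduct.rid K (UU K q)).toLinearMap ∘ₗ LinearMap.lTensor (UU K q) φ

@[simp] theorem sl_tmul (φ : UU K q →ₗ[K] K) (a b : UU K q) : sl q φ (a ⊗ₜ b) = φ b • a := by simp [sl]

theorem sl_Xo (φ : UU K q →ₗ[K] K) (i : Fin 2) (t : VV K q) : sl q φ (Xo q i t) = E q i * sl q φ t := by
  have : sl q φ ∘ₗ Xo q i = LinearMap.mulLeft K (E q i) ∘ₗ sl q φ := by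
    apply TensorProduct.ext'; intro a b; simp
  exact LinearMap.congr_fun this t

theorem sl_XR (φ : UU K q →ₗ[K] K) (i : Fin 2) (t : VV K q) : sl q φ (XR q i t) = sl q φ t * E q i := by
  have : sl q φ ∘ₗ XR q i = LinearMap.mulRight K (E q i) ∘ₗ sl q φ := by
    apply TensorProduct.ext'; intro a b; simp
  exact LinearMap.congr_fun this t

theorem sl_pl (φ : UU K q →ₗ[K] K) (μ : ℤ × ℤ) (t : VV K q) : sl q φ (pl q μ t) = cp q μ (sl q φ t) := by
  have : sl q φ ∘ₗ pl q μ = cp q μ ∘ₗ sl q φ := by
    apply TensorProduct.ext'; intro a b; simp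
  exact LinearMap.congr_fun this t

theorem eq_zero_of_sl (t : VV K q) (h : ∀ φ : UU K q →ₗ[K] K, sl q φ t = 0) : t = 0 := by
  let b := Module.Free.chooseBasis K (UU K q)
  have h1 : TensorProduct.equivFinsuppOfBasisRight b t = 0 := by
    ext i
    rw [TensorProduct.equivFinsuppOfBasisRight_apply]
    have := h (b.coord i)
    simpa [sl] using this
  exact (LinearEquiv.map_eq_zero_iff _).1 h1

theorem eq_cp_of (β : ℤ × ℤ) (a : UU K q) (h : ∀ μ, μ ≠ β → cp q μ a = 0) : cp q β a = a := by
  obtain ⟨s, hs⟩ := cp_sum q a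
  by_cases hβ : β ∈ s
  · have h1 : ∑ ν ∈ s, cp q ν a = cp q β a := by
      rw [Finset.sum_eq_single β (fun ν _ hν => h ν hν) (fun h' => absurd hβ h')]
    rw [← h1, ← hs]
  · have h1 : ∑ ν ∈ s, cp q ν a = 0 := Finset.sum_eq_zero (fun ν hν => h ν (fun h' => hβ (h' ▸ hν)))
    rw [h1] at hs
    rw [hs, map_zero]

/-- an element of the square with no components is zero -/
theorem eq_zero_of_pr (t : VV K q) (h : ∀ ν, pr q ν t = 0) : t = 0 := by
  classical
  have key : ∀ t : VV K q, ∃ s : Finset (ℤ × ℤ), ∀ s', s ⊆ s' → t = ∑ ν ∈ s', pr q ν t := by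
    intro t
    induction t using TensorProduct.induction_on with
    | zero => exact ⟨∅, fun s' _ => by simp⟩
    | tmul a b =>
      obtain ⟨s, hs⟩ := cp_sum q b
      refine ⟨s, fun s' hs' => ?_⟩
      simp only [pr_tmul]
      rw [← TensorProduct.tmul_sum]
      congr 1
      have h0 : ∀ ν, ν ∉ s → cp q ν b = 0 := by
        intro ν hν
        rw [hs, map_sum]
        apply Finset.sum_eq_zero
        intro μ hμ
        rw [cp_cp, if_neg]
        rintro rfl
        exact hν hμ
      rw [← Finset.sum_subset hs' (fun ν _ hν => h0 ν hν)]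
      exact hs
    | add x y hx hy =>
      obtain ⟨s, hs⟩ := hx
      obtain ⟨s', hs'⟩ := hy
      refine ⟨s ∪ s', fun u hu => ?_⟩
      simp only [map_add, Finset.sum_add_distrib]
      rw [← hs u (Finset.union_subset_left hu), ← hs' u (Finset.union_subset_right hu)]
  obtain ⟨s, hs⟩ := key t
  rw [hs s (Finset.Subset.refl _)]
  exact Finset.sum_eq_zero (fun ν _ => h ν)

theorem al_deg (i : Fin 2) : (al i).1 + (al i).2 = 1 := by unfold al; split_ifs <;> simp

/-- homogeneous central elements of positive degree vanish -/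
theorem main_hom (hq : q ≠ 0) (hq' : ∀ n : ℕ, 0 < n → q ^ n ≠ 1) (n : ℕ) : ∀ (β : ℤ × ℤ), β.1 + β.2 = n → 0 < n →
    ∀ z : UU K q, cp q β z = z → (∀ i, E q i * z = z * E q i) → z = 0 := by
  induction n using Nat.strong_induction_on with
  | _ n IH =>
  intro β hβ hn z hz hc
  by_contra hz0
  have hkap : ∀ i, kap q i z = q ^ (wt i β) • z := by
    intro i
    conv_lhs => rw [← hz]
    rw [kap_cp q hq, hz]
  -- the degree is isotropic
  have hwt : ∀ i, wt i β = 0 := by
    have h1 : ∀ i, ∃ m : ℕ, wt i β - 0 = 2 * m := fun i =>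
      lemI q hq hq' i z hz0 (wt i β) 0 (hkap i) (by rw [zpow_zero, one_smul]; exact hc i)
    obtain ⟨m0, hm0⟩ := h1 0
    obtain ⟨m1, hm1⟩ := h1 1
    have e0 : wt 0 β = 2 * (β.1 - β.2) := by simp [wt]
    have e1 : wt 1 β = 2 * (β.2 - β.1) := by simp [wt]
    intro i
    fin_cases i
    · change wt 0 β = 0; omega
    · change wt 1 β = 0; omega
  have hkz : ∀ i, kap q i z = z := fun i => by rw [hkap, hwt, zpow_zero, one_smul]
  have hβ12 : β.1 = β.2 := by
    have := hwt 0
    simp only [wt, if_true] at this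
    omega
  have hβ0 : β ≠ 0 := by
    rintro rfl
    simp at hβ
    omega
  have heps : eps q z = 0 := by
    have h1 := cp_low q z 0 (by simp)
    rw [if_pos rfl, ← hz, cp_cp, if_neg (fun h => hβ0 h.symm), hz] at h1
    have h2 : eps q (algebraMap K (UU K q) (eps q z)) = eps q z := by
      rw [AlgHom.commutes]; rfl
    rw [← h2, ← h1, map_zero]
  -- components of the coproduct
  set t : ℤ × ℤ → VV K q := fun ν => pr q ν (cop q hq z) with ht
  have hpl : ∀ μ ν, μ + ν ≠ β → pl q μ (t ν) = 0 := by
    intro μ ν h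
    simp only [ht]
    rw [bideg, ← hz, cp_cp, if_neg h, map_zero, map_zero, map_zero]
  have hM2 : ∀ i ν, Xo q i (t ν) + Yo q i (t (ν - al i)) =
      q ^ (wt i ν) • XR q i (t ν) + Yr q i (t (ν - al i)) := by
    intro i ν
    have h1 := congrArg (fun w => pr q ν (cop q hq w)) (hc i)
    simp only [cop_E_mul, cop_mul_E, map_add, pr_Xo, pr_Yo, pr_Xr q hq, pr_Yr] at h1
    exact h1
  have ht0 : t 0 = z ⊗ₜ 1 := by
    have h1 : ∀ s : VV K q, pr q 0 s = (cr q s) ⊗ₜ[K] (1 : UU K q) := by
      intro s
      induction s using TensorProduct.induction_on with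
      | zero => simp
      | tmul a b =>
        rw [pr_tmul, cr_tmul, cp_low q b 0 (by simp), if_pos rfl, Algebra.algebraMap_eq_smul_one,
          TensorProduct.tmul_smul, TensorProduct.smul_tmul']
      | add x y hx hy => rw [map_add, map_add, hx, hy, TensorProduct.add_tmul]
    simp only [ht]
    rw [h1, cr_cop]
  have htlow : ∀ ν : ℤ × ℤ, ν.1 + ν.2 ≤ 0 → ν ≠ 0 → t ν = 0 := by
    intro ν h1 h2
    have h3 : ∀ s : VV K q, pr q ν s = 0 := by
      intro s
      induction s using TensorProduct.induction_on with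
      | zero => simp
      | tmul a b => rw [pr_tmul, cp_low q b ν h1, if_neg h2, TensorProduct.tmul_zero]
      | add x y hx hy => rw [map_add, hx, hy, add_zero]
    exact h3 _
  -- middle components vanish
  have hmid : ∀ (m : ℕ) (ν : ℤ × ℤ), ν.1 + ν.2 = m → 0 < m → m < n → t ν = 0 := by
    intro m
    induction m using Nat.strong_induction_on with
    | _ m IHm =>
    intro ν hν hm0 hmn
    have hY : ∀ i, Yo q i (t (ν - al i)) = Yr q i (t (ν - al i)) := by
      intro i
      have hd : (ν - al i).1 + (ν - al i).2 = (m : ℤ) - 1 := by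
        have := al_deg i
        rw [Prod.fst_sub, Prod.snd_sub]; omega
      rcases Nat.eq_zero_or_pos (m - 1) with h0 | h0
      · by_cases h1 : ν - al i = 0
        · rw [h1, ht0, Yo_tmul, Yr_tmul, hkz, mul_one, one_mul]
        · rw [htlow _ (by omega) h1, map_zero, map_zero]
      · rw [IHm (m - 1) (by omega) (ν - al i) (by omega) h0 (by omega), map_zero, map_zero]
    have hX : ∀ i, Xo q i (t ν) = q ^ (wt i ν) • XR q i (t ν) := by
      intro i
      have := hM2 i ν
      rw [hY i] at this
      exact add_right_cancel this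
    apply eq_zero_of_sl
    intro φ
    by_contra ha0
    set a := sl q φ (t ν) with ha
    have hEa : ∀ i, E q i * a = q ^ (wt i ν) • (a * E q i) := by
      intro i
      rw [ha, ← sl_Xo, hX, map_smul, sl_XR]
    have hcpa : cp q (β - ν) a = a := by
      apply eq_cp_of
      intro μ hμ
      rw [ha, ← sl_pl, hpl μ ν, map_zero]
      intro h
      exact hμ (eq_sub_of_add_eq h)
    have hka : ∀ i, kap q i a = q ^ (wt i (β - ν)) • a := by
      intro i
      conv_lhs => rw [← hcpa]
      rw [kap_cp q hq, hcpa]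
    have hw : ∀ i, wt i ν = 0 := by
      have h1 : ∀ i, ∃ m : ℕ, wt i (β - ν) - wt i ν = 2 * m := fun i =>
        lemI q hq hq' i a ha0 _ _ (hka i) (hEa i)
      obtain ⟨m0, hm0⟩ := h1 0
      obtain ⟨m1, hm1⟩ := h1 1
      rw [wt_sub, hwt] at hm0 hm1
      have e0 : wt 0 ν = 2 * (ν.1 - ν.2) := by simp [wt]
      have e1 : wt 1 ν = 2 * (ν.2 - ν.1) := by simp [wt]
      intro i
      fin_cases i
      · change wt 0 ν = 0; omega
      · change wt 1 ν = 0; omega
    apply ha0
    refine IH (n - m) (by omega) (β - ν) ?_ (by omega) a hcpa (fun i => ?_)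
    · rw [Prod.fst_sub, Prod.snd_sub]; omega
    · rw [hEa, hw, zpow_zero, one_smul]
  -- the coproduct of `z`
  have hcop : cop q hq z = z ⊗ₜ 1 + 1 ⊗ₜ z := by
    rw [← sub_eq_zero]
    apply eq_zero_of_pr
    intro ν
    have h1 : pr q ν (cop q hq z) = t ν := rfl
    rw [map_sub, map_add, h1, pr_tmul, pr_tmul, cp_one]
    by_cases hν0 : ν = 0
    · subst hν0
      have h2 : cp q 0 z = 0 := by rw [← hz, cp_cp, if_neg (fun h => hβ0 h.symm)]
      rw [if_pos rfl, ht0, h2, TensorProduct.tmul_zero, add_zero, sub_self]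
    rw [if_neg hν0, TensorProduct.tmul_zero, zero_add]
    by_cases hνβ : ν = β
    · subst hνβ
      have h3 : t ν = 1 ⊗ₜ[K] z := by
        -- the first factor has degree zero
        have h4 : pl q 0 (t ν) = t ν := by
          rw [← sub_eq_zero]
          apply eq_zero_of_sl
          intro φ
          rw [map_sub, sl_pl, sub_eq_zero]
          apply eq_cp_of
          intro μ hμ
          rw [← sl_pl, hpl μ ν, map_zero]
          intro h
          apply hμ
          have := add_eq_right.1 h
          exact this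
        have h5 : ∀ s : VV K q, pl q 0 s = (1 : UU K q) ⊗ₜ[K] (cl q s) := by
          intro s
          induction s using TensorProduct.induction_on with
          | zero => simp
          | tmul a b =>
            rw [pl_tmul, cl_tmul, cp_low q a 0 (by simp), if_pos rfl, Algebra.algebraMap_eq_smul_one,
              TensorProduct.tmul_smul, TensorProduct.smul_tmul']
          | add x y hx hy => rw [map_add, map_add, hx, hy, TensorProduct.tmul_add]
        have h6 : cl q (t ν) = cp q ν (cl q (cop q hq z)) := by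
          have h7 : cl q ∘ₗ pr q ν = cp q ν ∘ₗ cl q := by
            apply TensorProduct.ext'; intro a b; simp
          exact LinearMap.congr_fun h7 _
        rw [← h4, h5, h6, cl_cop, hz]
      rw [h3, hz, sub_self]
    · have h2 : cp q ν z = 0 := by rw [← hz, cp_cp, if_neg hνβ]
      rw [h2, TensorProduct.tmul_zero, sub_zero]
      rcases lt_trichotomy (ν.1 + ν.2) 0 with hlt | heq | hgt
      · exact htlow ν hlt.le hν0
      · exact htlow ν heq.le hν0
      · rcases lt_or_ge (ν.1 + ν.2) (n : ℤ) with h3 | h3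
        · exact hmid (ν.1 + ν.2).toNat ν (by omega) (by omega) (by omega)
        · -- the first factor would have degree at most zero
          apply eq_zero_of_sl
          intro φ
          have h4 : cp q (β - ν) (sl q φ (t ν)) = sl q φ (t ν) := by
            apply eq_cp_of
            intro μ hμ
            rw [← sl_pl, hpl μ ν, map_zero]
            intro h
            exact hμ (eq_sub_of_add_eq h)
          rw [← h4, cp_low q _ (β - ν) (by rw [Prod.fst_sub, Prod.snd_sub]; omega), if_neg]
          intro h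
          exact hνβ (sub_eq_zero.1 h).symm
  -- the antipode
  have h1 := mu_cop q hq z
  rw [hcop, heps, map_zero, map_add, mu_tmul, mu_tmul, mul_one, Sa_one, one_mul] at h1
  have h2 : Sa q hq z = -z := eq_neg_of_add_eq_zero_left h1
  have h3 : Sa q hq (Sa q hq z) = z := by
    rw [h2]
    have h4 : Sa q hq (-z) = -(Sa q hq z) := map_neg _ _
    rw [h4, h2]
    exact neg_neg z
  have h4 := Sa_Sa q hq z β
  rw [hz, h3] at h4
  have h5 : (q ^ (ex β) - 1) • z = 0 := by rw [sub_smul, one_smul, ← h4, sub_self]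
  rcases smul_eq_zero.1 h5 with h6 | h6
  · have h7 : ex β = -(2 * n : ℤ) := by
      unfold ex; rw [hβ12, sub_self]; rw [hβ12] at hβ; rw [hβ]; ring
    rw [h7, zpow_neg, sub_eq_zero, inv_eq_one] at h6
    apply hq' (2 * n) (by omega)
    rw [← h6, ← zpow_natCast]
    push_cast
    rfl
  · exact hz0 h6

/-- the center of the algebra -/
theorem main_center (hq : q ≠ 0) (hq' : ∀ n : ℕ, 0 < n → q ^ n ≠ 1) (z : UU K q) (hz : ∀ w, z * w = w * z) :
    ∃ c : K, algebraMap K (UU K q) c = z := by
  obtain ⟨s, hs⟩ := cp_sum q z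
  have h1 : ∀ ν, ∃ c : K, algebraMap K (UU K q) c = cp q ν z := by
    intro ν
    rcases le_or_gt (ν.1 + ν.2) 0 with h | h
    · rw [cp_low q z ν h]
      split_ifs
      · exact ⟨_, rfl⟩
      · exact ⟨0, map_zero _⟩
    · refine ⟨0, ?_⟩
      rw [map_zero]
      symm
      refine main_hom q hq hq' (ν.1 + ν.2).toNat ν (by omega) (by omega) _ (by rw [cp_cp, if_pos rfl]) (fun i => ?_)
      have h2 := cp_E_mul q (ν + al i) i z
      have h3 := cp_mul_E q (ν + al i) i z
      rw [add_sub_cancel_right] at h2 h3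
      rw [← h2, ← h3, hz]
  choose c hc using h1
  refine ⟨∑ ν ∈ s, c ν, ?_⟩
  rw [map_sum, hs]
  apply Finset.sum_congr rfl
  intro ν _
  exact hc ν

end Pool.Agent.W420.Cen
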